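import Pool.Agent.X324.CG.PolyInvPair

set_option autoImplicit false

/-!
# The cone conjecture (nef and movable) for pairs on `(A × F) / G`, if the cone of `F / G` is polyhedral

`A = V / Λ` is an abelian variety and `F` a normal projective `ℚ`-factorial variety with free class
group `Cl(F) = ℤ^ρ`, given by its Cox ring `R = ⨁ H⁰(F, O_F(β))`, which need not be finitely generated.
Let `X = (A × F) / G` be a projective quotient, where a finite group `G` acts on both factors; the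
action may have fixed points and fixed divisors. Let `Δ` be an effective divisor on `X` with real
coefficients such that `K_X + Δ` is numerically trivial. (Only the curves of `X` which come from curves
`C × {point}` in `A × F` are needed for this hypothesis.) The classes of `F` which are invariant under
`G` form the space `N^1(F / G)`; the nef and effective ones form the cone `Nef^e(F / G)`, and the
effective ones in the closed movable cone form the cone `Mov^e(F / G)`. The theorem says: (a) if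
`Nef^e(F / G)` is rational polyhedral, then the cone `Nef^e(X)` has a rational polyhedral fundamental
domain for the action of `Aut(X, Δ)`, and its faces form finitely many orbits; (b) if `Mov^e(F / G)` is
rational polyhedral, then the same holds for `Mov^e(X)` and `PsAut(X, Δ)`. This holds if `F / G` is a
Mori dream space, or if its Picard number is one. The variety `F` need not be a Mori dream space; the
groups `Aut(F)` and `Bir(F)` may be infinite (for instance, `F` may be a K3 surface or a Calabi–Yau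
variety which is a double covering of a projective space or of a Fano variety, with the covering
involution), and nothing is assumed about the cone conjecture for `F`.

`Cl`, `SemiampleF`, `Grp`, `IsQuotient`, `Inv`, `Sheaf`, `EffDiv`, `EffDiv.Fixed`, `NumTrivial`,
`Normalizes`, `N1`, `integral`, `effective`, `semiample`, `movable`, `nefCone`, `movCone`, `effCone`,
`coneHull` and `IsPullback` are defined in `Pool.Agent.X324.CF.Defs`; `IsCoxRing`, `MovableF` and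
`real` in `Pool.Agent.X324.CG.Defs`; `IsTorusQuotient` in `Pool.Agent.W594.SYZ.Defs2`;
`IsPositiveForm` in `Pool.Agent.W594.SYZ.TQDefs`; `LinGrp`, `Preserves`, `IsFundDomain` in
`Pool.Agent.Y167.Stm`; `cone` in `Pool.Agent.Y167.ConeDef`; `IsFace` in `Pool.Agent.Y167.StmFace`.
-/

namespace Pool.Agent.Results.MP_ad47bb_ag.PolyhedralQuotientPairs

open Pool.Agent.W594.SYZ2 Pool.Agent.TH735.AQ Pool.Agent.X324.CF
open Pool.Agent.X324.CG (IsCoxRing MovableF real)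
open Pool.Agent.Y167 (cone IsFace)
open Pool.Agent.Y167.CC (LinGrp Preserves IsFundDomain)

section F

variable {R : Type*} [CommRing R] [Algebra ℂ R] {ρ : ℕ} (𝒜 : Cl ρ → Submodule ℂ R)

/-- The nef cone of `F`: the closure of the convex cone spanned by the semiample classes; here `u` is
an ample class of `F`. -/
def nefF (u : Cl ρ) : Set (Fin ρ → ℝ) :=
  closure (coneHull {b | ∃ β, SemiampleF 𝒜 u β ∧ b = real β})

/-- The closed movable cone of `F`: the closure of the convex cone spanned by the movable classes. -/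
def movF : Set (Fin ρ → ℝ) := closure (coneHull {b | ∃ β, MovableF 𝒜 β ∧ b = real β})

/-- The effective cone of `F`: the convex cone spanned by the classes of effective divisors. -/
def effF : Set (Fin ρ → ℝ) := coneHull {b | ∃ β, (∃ r ∈ 𝒜 β, r ≠ 0) ∧ b = real β}

end F

section X

variable {V R : Type*} [NormedAddCommGroup V] [NormedSpace ℂ V] [CommRing R] [Algebra ℂ R] {ρ : ℕ}
  (𝒜 : Cl ρ → Submodule ℂ R) (Γ : Grp V R)

/-- The real space `N^1(F / G)` of the classes of `F` which are invariant under `Γ`. -/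
def invF : Set (Fin ρ → ℝ) := Submodule.span ℝ {b | ∃ β, Inv 𝒜 Γ β ∧ b = real β}

/-- The cone of the effective classes of `F / G` in the cone `K` of `F` is rational polyhedral. -/
def QuotientPolyhedral (K : Set (Fin ρ → ℝ)) : Prop :=
  ∃ T : Finset (Fin ρ → ℝ), (∀ s ∈ T, ∃ β, s = real β) ∧ K ∩ effF 𝒜 ∩ invF 𝒜 Γ = cone T

/-- The space `N^1(X)`. (In the absolute case the linear subspace `E` of `V` of the general
definitions is `V` itself, embedded by the identity map.) -/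
abbrev NS : Type _ := N1 𝒜 Γ (LinearMap.id : V →ₗ[ℂ] V)

/-- The cone `Nef^e(X)`. -/
def nefEff (u : Cl ρ) : Set (NS 𝒜 Γ) :=
  nefCone 𝒜 Γ LinearMap.id u ∩ effCone 𝒜 Γ LinearMap.id

/-- The cone `Mov^e(X)`. -/
def movEff : Set (NS 𝒜 Γ) := movCone 𝒜 Γ LinearMap.id ∩ effCone 𝒜 Γ LinearMap.id

variable {𝒜 Γ}

/-- `𝒢` is a group of linear automorphisms of `N^1(X)` which preserves the integral classes and the
cone `A`, and which contains the pullbacks by all automorphisms of `X` of the form `(f, id)` which map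
`Δ` to itself. The image of `Aut(X, Δ)` has these properties for the cone `Nef^e(X)`, and the image of
`PsAut(X, Δ)` for the cone `Mov^e(X)`. The same holds for `Aut(X)` and `PsAut(X)`. -/
structure IsAutGroup {ι : Type*} [Fintype ι] (Δ : EffDiv 𝒜 Γ ι) (A : Set (NS 𝒜 Γ))
    (𝒢 : LinGrp (NS 𝒜 Γ)) : Prop where
  int : Preserves 𝒢 (integral 𝒜 Γ LinearMap.id)
  pres : Preserves 𝒢 A
  aff : ∀ f : V ≃ᵃ[ℂ] V, Normalizes Γ f → Δ.Fixed f → ∀ g, IsPullback f g → g ∈ 𝒢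

/-- The cone `A` has a rational polyhedral fundamental domain for the action of `𝒢`, the cone spanned
by a finite set `S` of integral classes, and its faces form finitely many orbits under `𝒢`. -/
def HasDomain (A : Set (NS 𝒜 Γ)) (𝒢 : LinGrp (NS 𝒜 Γ)) : Prop :=
  (∃ S : Finset (NS 𝒜 Γ), ↑S ⊆ integral 𝒜 Γ LinearMap.id ∧ cone S ⊆ A ∧
    IsFundDomain 𝒢 A (cone S)) ∧
  ∃ 𝓕 : Set (Set (NS 𝒜 Γ)), 𝓕.Finite ∧ (∀ Φ ∈ 𝓕, IsFace Φ A) ∧
    ∀ Φ, IsFace Φ A → ∃ g ∈ 𝒢, ∃ Φ' ∈ 𝓕, Φ = g '' Φ'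

end X

/-- Let `X = (V × F) / Γ` be a projective quotient and `Δ` an effective divisor with real coefficients
on `X` such that `K_X + Δ` is numerically trivial. Then (a) if `Nef^e(F / G)` is rational polyhedral,
`Nef^e(X)` has a rational polyhedral fundamental domain for `Aut(X, Δ)`, and finitely many orbits of
faces; (b) if `Mov^e(F / G)` is rational polyhedral, the same holds for `Mov^e(X)` and `PsAut(X, Δ)`. -/
theorem result {V R : Type*} [NormedAddCommGroup V] [NormedSpace ℂ V] [FiniteDimensional ℂ V]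
    [CommRing R] [IsDomain R] [Algebra ℂ R] {ρ : ℕ}
    (𝒜 : Cl ρ → Submodule ℂ R) [GradedAlgebra 𝒜] (u : Cl ρ) (hF : IsCoxRing 𝒜 u)
    (Γ : Grp V R) (hX : IsQuotient 𝒜 u Γ)
    (hproj : ∃ (L : Sheaf 𝒜 Γ) (H : V → V → ℂ), L.IsChern H ∧ IsPositiveForm H)
    {ι : Type*} [Fintype ι] (Δ : EffDiv 𝒜 Γ ι)
    (hΔ : NumTrivial Δ (LinearMap.id : V →ₗ[ℂ] V)) :
    (QuotientPolyhedral 𝒜 Γ (nefF 𝒜 u) → ∀ 𝒢 : LinGrp (NS 𝒜 Γ),
      IsAutGroup Δ (nefEff 𝒜 Γ u) 𝒢 → HasDomain (nefEff 𝒜 Γ u) 𝒢) ∧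
    (QuotientPolyhedral 𝒜 Γ (movF 𝒜) → ∀ 𝒢 : LinGrp (NS 𝒜 Γ),
      IsAutGroup Δ (movEff 𝒜 Γ) 𝒢 → HasDomain (movEff 𝒜 Γ) 𝒢) := by
  obtain ⟨H₀, Rl⟩ := rel_id hX hproj
  have hB : ∀ b, b ∈ Bs 𝒜 Γ ↔ b ∈ invF 𝒜 Γ := fun b => Iff.rfl
  have hE : Pool.Agent.X324.CG.EQ 𝒜 ⊤ = effF 𝒜 := by
    have h1 : {b : Fin ρ → ℝ | ∃ β, (∃ r ∈ 𝒜 β, r ≠ 0) ∧ β ∈ (⊤ : AddSubgroup (Cl ρ)) ∧
        b = rv β} = {b | ∃ β, (∃ r ∈ 𝒜 β, r ≠ 0) ∧ b = real β} := by
      ext b
      exact ⟨fun ⟨β, h1, _, h2⟩ => ⟨β, h1, h2⟩, fun ⟨β, h1, h2⟩ => ⟨β, h1, AddSubgroup.mem_top β, h2⟩⟩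
    change coneHull _ = coneHull _
    rw [h1]
  have hKn : Pool.Agent.X324.CG.KQ {β | SemiampleF 𝒜 u β} ⊤ = nefF 𝒜 u := by
    have h1 : {b : Fin ρ → ℝ | ∃ β, β ∈ {β | SemiampleF 𝒜 u β} ∧ β ∈ (⊤ : AddSubgroup (Cl ρ)) ∧
        b = rv β} = {b | ∃ β, SemiampleF 𝒜 u β ∧ b = real β} := by
      ext b
      exact ⟨fun ⟨β, h1, _, h2⟩ => ⟨β, h1, h2⟩, fun ⟨β, h1, h2⟩ => ⟨β, h1, AddSubgroup.mem_top β, h2⟩⟩
    change closure (coneHull _) = closure (coneHull _)
    rw [h1]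
  have hKm : Pool.Agent.X324.CG.KQ {β | MovableF 𝒜 β} ⊤ = movF 𝒜 := by
    have h1 : {b : Fin ρ → ℝ | ∃ β, β ∈ {β | MovableF 𝒜 β} ∧ β ∈ (⊤ : AddSubgroup (Cl ρ)) ∧
        b = rv β} = {b | ∃ β, MovableF 𝒜 β ∧ b = real β} := by
      ext b
      exact ⟨fun ⟨β, h1, _, h2⟩ => ⟨β, h1, h2⟩, fun ⟨β, h1, h2⟩ => ⟨β, h1, AddSubgroup.mem_top β, h2⟩⟩
    change closure (coneHull _) = closure (coneHull _)
    rw [h1]
  have key : ∀ {𝒬 : Set (Cl ρ)} {K : Set (Fin ρ → ℝ)}, Pool.Agent.X324.CG.KQ 𝒬 ⊤ = K →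
      ∀ {T : Finset (Fin ρ → ℝ)}, (∀ s ∈ T, ∃ β, s = real β) → K ∩ effF 𝒜 ∩ invF 𝒜 Γ = cone T →
      (∀ s ∈ T, (s ∈ Pool.Agent.X324.CG.KQ 𝒬 ⊤ ∧ s ∈ Pool.Agent.X324.CG.EQ 𝒜 ⊤) ∧ s ∈ Bs 𝒜 Γ ∧
        ∃ β, s = rv β) ∧
      ∀ b, b ∈ Pool.Agent.X324.CG.KQ 𝒬 ⊤ → b ∈ Pool.Agent.X324.CG.EQ 𝒜 ⊤ → b ∈ Bs 𝒜 Γ →
        b ∈ cone T := by
    intro 𝒬 K hK T hT hTc
    refine ⟨fun s hs => ?_, fun b hb hb' hb2 => ?_⟩
    · rw [hK, hE, hB]
      have h1 : s ∈ K ∩ effF 𝒜 ∩ invF 𝒜 Γ := by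
        rw [hTc]
        exact Pool.Agent.Y167.mem_cone_self hs
      exact ⟨h1.1, h1.2, hT s hs⟩
    · rw [hK] at hb
      rw [hE] at hb'
      rw [hB] at hb2
      rw [← hTc]
      exact ⟨⟨hb, hb'⟩, hb2⟩
  constructor
  · rintro ⟨T, hT, hTc⟩ 𝒢 h𝒢
    obtain ⟨d, D⟩ := hF.sys_nef (𝒮 := gal Γ) fun _ h => Pool.Agent.X324.CG.gal_aut hX h
    obtain ⟨h1, h2⟩ := key hKn hT hTc
    obtain ⟨h3, -, h4⟩ := Pool.Agent.X324.CG.main8 D hX h1 h2 Rl (hF.good_nef hX D.base) Δ hΔ 𝒢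
      h𝒢.int h𝒢.pres fun f hf _ hf3 g hg => h𝒢.aff f hf hf3 g hg
    exact ⟨h3, h4⟩
  · rintro ⟨T, hT, hTc⟩ 𝒢 h𝒢
    obtain ⟨d, D⟩ := hF.sys_mov (𝒮 := gal Γ) fun _ h => (Pool.Agent.X324.CG.gal_aut hX h).1
    obtain ⟨h1, h2⟩ := key hKm hT hTc
    obtain ⟨h3, -, h4⟩ := Pool.Agent.X324.CG.main8 D hX h1 h2 Rl (hF.good_mov hX D.base) Δ hΔ 𝒢
      h𝒢.int h𝒢.pres fun f hf _ hf3 g hg => h𝒢.aff f hf hf3 g hg
    exact ⟨h3, h4⟩

end Pool.Agent.Results.MP_ad47bb_ag.PolyhedralQuotientPairs
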