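import Pool.Agent.X324.CG.Norm

set_option autoImplicit false

/-!
# The cone conjecture (nef and movable) for klt Calabi–Yau pairs: reduction to the factors

`A = V / Λ` is an abelian variety and `F = ∏ F i` a product of normal projective `ℚ`-factorial varieties
with free class groups; the Cox ring `R = ⨁ H⁰(F, O_F(β))` need not be finitely generated. Let
`X = (A × F) / G`, where a finite group `G` acts on both factors; the action may have fixed points and
fixed divisors. Let `Δ` be an effective divisor on `X` with real coefficients such that `K_X + Δ` is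
numerically trivial. (Only the curves of `X` which come from curves `C × {point}` in `A × F` are needed
for this hypothesis.)

The theorem says: (a) if the nef cone conjecture holds for the varieties `F i` with respect to a group
`𝒮` of automorphisms of `F`, then `Nef^e(X)` has a rational polyhedral fundamental domain and only
finitely many faces up to `Aut(X, Δ)`, and (b) if the movable cone conjecture holds for the varieties `F i` with respect to a
group `𝒮` of pseudo-automorphisms of `F`, then `Mov^e(X)` has a rational polyhedral fundamental domain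
and only finitely many faces up to `PsAut(X, Δ)`. Both cones are the convex hulls of the rational classes
in their closures. Here `𝒮` contains the automorphisms of `F` given by `G`, only finitely many elements
of `𝒮` act trivially on `Cl(F)`, and the components of the pullback of `Δ` to `A × F` are preserved by a
subgroup of finite index of `𝒮`; for instance the (pseudo-)automorphisms of a pair `(F, Δ_F)` such that
the pullback of `Δ` is `A × Δ_F`. The same follows for the larger groups `Aut(X)` and `PsAut(X)`.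

If the cones of the `F i` are rational polyhedral (for example if the `F i` are Mori dream spaces), one
can take for `𝒮` the finite group of the automorphisms given by `G`, and the result is unconditional.

`Cl`, `Semistable`, `SemiampleF`, `Induces`, `Scal`, `Elt`, `Grp`, `IsQuotient`, `Sheaf`, `EffDiv`,
`NumTrivial`, `N1`, `integral`, `effective`, `semiample`, `movable`, `nefCone`, `movCone` and `effCone`
are defined in `Pool.Agent.X324.CF.Defs`; `IsCoxRing`, `MovableF`, `IsProduct`, `nefF`, `movF`, `effF`,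
`HasCover`, `FiniteKernel`, `IsAut`, `IsPsAut`, `OnFactor`, `IsPullbackX` and `FixedX` in
`Pool.Agent.X324.CG.Defs`; `NormX` in `Pool.Agent.X324.CG.NormDefs`; `IsTorusQuotient` in
`Pool.Agent.W594.SYZ.Defs2`; `IsPositiveForm` in `Pool.Agent.W594.SYZ.TQDefs`; `LinGrp`, `Preserves`,
`IsFundDomain` and `cone` in `Pool.Agent.Y167`.
-/

namespace Pool.Agent.Results.MP_ad47bb_ag.ReductionPairs

open Pool.Agent.W594.SYZ2 Pool.Agent.TH735.AQ Pool.Agent.X324.CF
open Pool.Agent.X324.CG (IsCoxRing IsProduct nefF movF effF HasCover FiniteKernel IsAut IsPsAut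
  OnFactor NormX IsPullbackX FixedX)
open Pool.Agent.Y167 (cone IsFace)
open Pool.Agent.Y167.CC (LinGrp Preserves IsFundDomain)

/-- The space `N^1(X)`. (In the absolute case the linear subspace `E` of `V` of the general
definitions is `V` itself, embedded by the identity map.) -/
abbrev NS {V R : Type*} [NormedAddCommGroup V] [NormedSpace ℂ V] [CommRing R] [Algebra ℂ R] {ρ : ℕ}
    (𝒜 : Cl ρ → Submodule ℂ R) (Γ : Grp V R) : Type _ :=
  N1 𝒜 Γ (LinearMap.id : V →ₗ[ℂ] V)

/-- The cone `Nef^e(X)`. -/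
def nefEff {V R : Type*} [NormedAddCommGroup V] [NormedSpace ℂ V] [CommRing R] [Algebra ℂ R] {ρ : ℕ}
    (𝒜 : Cl ρ → Submodule ℂ R) (Γ : Grp V R) (u : Cl ρ) : Set (NS 𝒜 Γ) :=
  nefCone 𝒜 Γ LinearMap.id u ∩ effCone 𝒜 Γ LinearMap.id

/-- The cone `Mov^e(X)`. -/
def movEff {V R : Type*} [NormedAddCommGroup V] [NormedSpace ℂ V] [CommRing R] [Algebra ℂ R] {ρ : ℕ}
    (𝒜 : Cl ρ → Submodule ℂ R) (Γ : Grp V R) : Set (NS 𝒜 Γ) :=
  movCone 𝒜 Γ LinearMap.id ∩ effCone 𝒜 Γ LinearMap.id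

/-- The group `𝒮` contains the automorphisms of `F = ∏ F i` which are given by `G`; for each `i` the
effective classes in the cone `K i` (the nef or the closed movable cone of `F i`) are covered by the
translates of a rational polyhedral cone under the elements of `𝒮` which act only on `F i`; only finitely
many elements of `𝒮` act trivially on `Cl(F)`; and the components of the pullback of `Δ` to `A × F` are
preserved by a subgroup of finite index of `𝒮`. -/
structure ConeConjecture {V R κ : Type*} [NormedAddCommGroup V] [NormedSpace ℂ V] [CommRing R]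
    [Algebra ℂ R] {ρ : ℕ} {𝒜 : Cl ρ → Submodule ℂ R} {Γ : Grp V R} (c : Fin ρ → κ)
    {ι : Type*} (Δ : EffDiv 𝒜 Γ ι) (K : κ → Set (Fin ρ → ℝ)) (𝒮 : Subgroup (R ≃ₐ[ℂ] R)) : Prop where
  gal : ∀ γ ∈ Γ, γ.2 ∈ 𝒮
  cover : ∀ i, HasCover 𝒜 (K i ∩ effF 𝒜 c i) {φ | φ ∈ 𝒮 ∧ OnFactor 𝒜 c i φ}
  kernel : FiniteKernel 𝒜 {φ | φ ∈ 𝒮}
  comp : ∃ T : Set (R ≃ₐ[ℂ] R), T.Finite ∧ ∀ φ ∈ 𝒮, ∃ h ∈ T, FixedX Δ (1, h⁻¹ * φ)

/-- `𝒢` is a group of linear automorphisms of `N^1(X)` which preserves the integral classes and the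
cone `C`, and which contains the pullbacks by all pseudo-automorphisms of `X` induced by pairs `(f, φ)` of
an affine transformation of `V` and an element of `𝒮` which map the components of `Δ` to themselves. The
images of `Aut(X, Δ)` and `Aut(X)` have these properties for the cone `Nef^e(X)` if `𝒮` consists of
automorphisms, and the images of `PsAut(X, Δ)` and `PsAut(X)` for the cone `Mov^e(X)`. -/
structure IsAutGroup {V R : Type*} [NormedAddCommGroup V] [NormedSpace ℂ V] [CommRing R]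
    [Algebra ℂ R] {ρ : ℕ} {𝒜 : Cl ρ → Submodule ℂ R} {Γ : Grp V R} {ι : Type*}
    (Δ : EffDiv 𝒜 Γ ι) (𝒮 : Subgroup (R ≃ₐ[ℂ] R)) (C : Set (NS 𝒜 Γ)) (𝒢 : LinGrp (NS 𝒜 Γ)) :
    Prop where
  int : Preserves 𝒢 (integral 𝒜 Γ LinearMap.id)
  pres : Preserves 𝒢 C
  aut : ∀ a : Elt V R, NormX 𝒜 Γ a → a.2 ∈ 𝒮 → FixedX Δ a → ∀ g, IsPullbackX a g → g ∈ 𝒢

/-- (1) The cone `C` has a rational polyhedral fundamental domain for the action of `𝒢`: the cone spanned
by a finite set `S` of integral classes. (2) `C` is the convex hull of the rational classes in the closed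
cone `K`. (3) `C` has, up to the action of `𝒢`, only finitely many faces. -/
def ConeTheorem {V R : Type*} [NormedAddCommGroup V] [NormedSpace ℂ V] [CommRing R] [Algebra ℂ R]
    {ρ : ℕ} {𝒜 : Cl ρ → Submodule ℂ R} {Γ : Grp V R} (K C : Set (NS 𝒜 Γ)) (𝒢 : LinGrp (NS 𝒜 Γ)) :
    Prop :=
  (∃ S : Finset (NS 𝒜 Γ), ↑S ⊆ integral 𝒜 Γ LinearMap.id ∧ cone S ⊆ C ∧ IsFundDomain 𝒢 C (cone S)) ∧
  C = convexHull ℝ (K ∩ {x | ∃ n : ℕ, 0 < n ∧ (n : ℝ) • x ∈ integral 𝒜 Γ LinearMap.id}) ∧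
  ∃ 𝓕 : Set (Set (NS 𝒜 Γ)), 𝓕.Finite ∧ (∀ Φ ∈ 𝓕, IsFace Φ C) ∧
    ∀ Φ, IsFace Φ C → ∃ g ∈ 𝒢, ∃ Φ' ∈ 𝓕, Φ = g '' Φ'

/-- Let `F` be the product of varieties `F i`, `i ∈ κ`. Let `X = (V × F) / Γ` be a projective quotient
and `Δ` an effective divisor with real coefficients on `X` such that `K_X + Δ` is numerically trivial.
Let `𝒮` be a group of automorphisms (a), resp. pseudo-automorphisms (b), of `F` for which the cone
conjecture holds. Then (a) `Nef^e(X)` has a rational polyhedral fundamental domain and finitely many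
orbits of faces for `Aut(X, Δ)`, and is the convex hull of the rational nef classes; and (b) `Mov^e(X)` has
a rational polyhedral fundamental domain and finitely many orbits of faces for `PsAut(X, Δ)`, and is the
convex hull of the rational classes in the closed movable cone. -/
theorem result {V R κ : Type*} [NormedAddCommGroup V] [NormedSpace ℂ V] [FiniteDimensional ℂ V]
    [CommRing R] [IsDomain R] [Algebra ℂ R] [DecidableEq κ] [Fintype κ] {ρ : ℕ}
    (𝒜 : Cl ρ → Submodule ℂ R) [GradedAlgebra 𝒜] (u : Cl ρ) (hF : IsCoxRing 𝒜 u)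
    (c : Fin ρ → κ) (hprod : IsProduct 𝒜 c) (Γ : Grp V R) (hX : IsQuotient 𝒜 u Γ)
    (hproj : ∃ (L : Sheaf 𝒜 Γ) (H : V → V → ℂ), L.IsChern H ∧ IsPositiveForm H)
    {ι : Type*} [Fintype ι] (Δ : EffDiv 𝒜 Γ ι)
    (hΔ : NumTrivial Δ (LinearMap.id : V →ₗ[ℂ] V)) (𝒮 : Subgroup (R ≃ₐ[ℂ] R)) :
    ((∀ φ ∈ 𝒮, IsAut 𝒜 u φ) → ConeConjecture c Δ (nefF 𝒜 u c) 𝒮 →
      ∀ 𝒢, IsAutGroup Δ 𝒮 (nefEff 𝒜 Γ u) 𝒢 →
        ConeTheorem (nefCone 𝒜 Γ LinearMap.id u) (nefEff 𝒜 Γ u) 𝒢) ∧
    ((∀ φ ∈ 𝒮, IsPsAut 𝒜 φ) → ConeConjecture c Δ (movF 𝒜 c) 𝒮 →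
      ∀ 𝒢, IsAutGroup Δ 𝒮 (movEff 𝒜 Γ) 𝒢 →
        ConeTheorem (movCone 𝒜 Γ LinearMap.id) (movEff 𝒜 Γ) 𝒢) := by
  obtain ⟨H₀, Rl⟩ := rel_id hX hproj
  refine ⟨fun haut h𝒮 𝒢 h𝒢 => ?_, fun haut h𝒮 𝒢 h𝒢 => ?_⟩
  · obtain ⟨d, D, S₀, hS₀, hcov⟩ := Pool.Agent.X324.CG.cover_nef (𝒮 := 𝒮) hF hprod haut h𝒮.cover
    obtain ⟨T, hT, hfi⟩ := h𝒮.comp
    exact Pool.Agent.X324.CG.main4 D hX (by rintro _ ⟨γ, hγ, rfl⟩; exact h𝒮.gal γ hγ)
      (𝒮₁ := Pool.Agent.X324.CG.fixGrp Δ) hT hfi hS₀ hcov h𝒮.kernel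
      Rl (hF.good_nef hX D.base) (FixedX Δ)
      (fun m g hg f hf => Pool.Agent.X324.CG.fixedX_aff (fixed_of_good hX Rl Δ hΔ hg hf))
      (fun _ _ h => h)
      𝒢 h𝒢.int h𝒢.pres
      (fun a ha ha2 _ hfx g hg => h𝒢.aut a (ha.norm (haut _ ha2).1) ha2 hfx g hg)
  · obtain ⟨d, D, S₀, hS₀, hcov⟩ := Pool.Agent.X324.CG.cover_mov (𝒮 := 𝒮) hF hprod haut h𝒮.cover
    obtain ⟨T, hT, hfi⟩ := h𝒮.comp
    exact Pool.Agent.X324.CG.main4 D hX (by rintro _ ⟨γ, hγ, rfl⟩; exact h𝒮.gal γ hγ)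
      (𝒮₁ := Pool.Agent.X324.CG.fixGrp Δ) hT hfi hS₀ hcov h𝒮.kernel
      Rl (hF.good_mov hX D.base) (FixedX Δ)
      (fun m g hg f hf => Pool.Agent.X324.CG.fixedX_aff (fixed_of_good hX Rl Δ hΔ hg hf))
      (fun _ _ h => h)
      𝒢 h𝒢.int h𝒢.pres
      (fun a ha ha2 _ hfx g hg => h𝒢.aut a (ha.norm (haut _ ha2)) ha2 hfx g hg)

end Pool.Agent.Results.MP_ad47bb_ag.ReductionPairs
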